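import Pool.Agent.H842R2.Final

/-!
# Finitely many simple-homotopy types of 2-complexes with finite fundamental group

For every finite group `G` and every integer `n` there are only finitely many simple-homotopy types
of finite connected 2-complexes with fundamental group `G` and Euler characteristic `n`; in
particular this holds at the minimal level `n = χ_min(G)`.

The 2-complexes are the standard complexes of finite presentations (`H970SH.Pres`); every finite
connected 2-complex is simple-homotopy equivalent to one of them. Simple-homotopy equivalence
(`H970SH.SimpleHomotopyEquivalent`) is the existence of a homotopy equivalence with vanishing
Whitehead torsion, expressed in the cellular chain complexes of the universal covers.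
-/

namespace Pool.Agent.Results.MP_b73599_gt.FiniteSimpleTypes

open H970SH

/-- The Euler characteristic `1 - |X| + |Y|` of the standard complex of a finite presentation
with generators `X` and relators indexed by `Y`. -/
def eulerChar (P : Pres) : ℤ := 1 - Fintype.card P.X + Fintype.card P.Y

/-- For every finite group `G` and every `n`, the 2-complexes with fundamental group `G` and Euler
characteristic `n` fall into finitely many simple-homotopy types: there is a finite set of such
complexes so that every such complex is simple-homotopy equivalent to one of this set. -/
theorem result (G : Type) [Group G] [Finite G] (n : ℤ) :
    ∃ S : Set Pres, S.Finite ∧ (∀ L ∈ S, Nonempty (L.Pi1 ≃* G) ∧ eulerChar L = n) ∧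
      ∀ K : Pres, Nonempty (K.Pi1 ≃* G) → eulerChar K = n →
        ∃ L ∈ S, SimpleHomotopyEquivalent K L :=
  H842.main G n

end Pool.Agent.Results.MP_b73599_gt.FiniteSimpleTypes
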